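import Mathlib
import Pool.Agent.Helper91K9.Ver.Defs
import Pool.Agent.Helper91K9.Ver.Core

/-!
# Two 3-Veronese surfaces through 13 general points of `ℙ^9` which meet in a finite set

The answer to Q1 is negative, already for `n = 2`, `r = 3` (so `N = 10` and `m = N + n + 1 = 13`):
through 13 general points of `ℙ^9` there are two different 3-Veronese surfaces whose intersection
is a finite set.

Idea. Let `f = x^3 - x z^2`, `g = y^3 - y z^2`, let `q_1, ..., q_9` be the common zeros of `f` and `g`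
(a 3 by 3 grid), `q_10, q_11` two zeros of `f` with `g(q_10) = - g(q_11) = 6` and `q_12, q_13` two zeros
of `g` with `f(q_12) = - f(q_13) = 6`. The linear involution `φ` of the space of vectors of cubic
monomials which fixes `ν(q_1), ..., ν(q_9)` and exchanges `ν(q_10)` with `ν(q_11)` and `ν(q_12)` with
`ν(q_13)` maps the Veronese surface to a second one through the 13 points `ν(q_i)`. Both surfaces
are isolated among those through the 13 points (the differential of `(g, x) ↦ (g ν(x_i))_i` is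
surjective at both), and they meet only in the 13 points; by the inverse function theorem,
the theorem of Chevalley and an algebraic criterion for finiteness (seven quadrics without a common
zero on a line) the same happens for general points.
-/

set_option autoImplicit false

open scoped LinearAlgebra.Projectivization

namespace Pool.Agent.Results.MP_f58153_ag.FiniteIntersection

open Pool.Agent.Helper91K9.Ver

/-- the numbering of the monomials -/
def monIdx (k : Fin 10) : Mon 2 3 :=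
  ⟨fun c => ⟨ex k c, by revert k c; decide⟩, by revert k; decide⟩

lemma monIdx_bij : Function.Bijective monIdx :=
  (Fintype.bijective_iff_injective_and_card _).2 ⟨by decide, by decide⟩

lemma vv_monIdx (x : Fin 3 → ℂ) (k : Fin 10) : veroneseVector 2 3 x (monIdx k) = nu x k := by
  simp only [veroneseVector, monIdx, nu]
  rw [Fin.prod_univ_three]

/-- the change of coordinates -/
noncomputable def chg (g : Matrix (Fin 10) (Fin 10) ℂ) (hg : g.det ≠ 0) :
    (Mon 2 3 → ℂ) ≃ₗ[ℂ] (Fin 10 → ℂ) :=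
  (LinearEquiv.funCongrLeft ℂ ℂ (Equiv.ofBijective monIdx monIdx_bij)).trans
    (Matrix.toLinearEquiv' g (g.invertibleOfIsUnitDet (isUnit_iff_ne_zero.2 hg)))

lemma chg_vv (g : Matrix (Fin 10) (Fin 10) ℂ) (hg : g.det ≠ 0) (x : Fin 3 → ℂ) :
    chg g hg (veroneseVector 2 3 x) = g.mulVec (nu x) := by
  have h : (LinearEquiv.funCongrLeft ℂ ℂ (Equiv.ofBijective monIdx monIdx_bij))
      (veroneseVector 2 3 x) = nu x := by
    ext k
    exact vv_monIdx x k
  show g.mulVec ((LinearEquiv.funCongrLeft ℂ ℂ (Equiv.ofBijective monIdx monIdx_bij))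
      (veroneseVector 2 3 x)) = _
  rw [h]

lemma nu_zero : nu (0 : Fin 3 → ℂ) = 0 := by
  ext k
  fin_cases k <;> simp [nu, ex]

lemma mulVec_ne (g : Matrix (Fin 10) (Fin 10) ℂ) (hg : g.det ≠ 0) (v : Fin 10 → ℂ) (hv : v ≠ 0) :
    g.mulVec v ≠ 0 := fun h => hv (Matrix.eq_zero_of_mulVec_eq_zero hg h)

lemma nu_affine_ne (p : ℂ × ℂ) : nu ![p.1, p.2, 1] ≠ 0 := by
  intro h
  have := congrFun h 0
  simp [nu, ex] at this

/-- the points of the affine part of a Veronese surface -/
noncomputable def aff (g : Matrix (Fin 10) (Fin 10) ℂ) (hg : g.det ≠ 0) (p : ℂ × ℂ) :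
    ℙ ℂ (Fin 10 → ℂ) :=
  Projectivization.mk ℂ (g.mulVec (nu ![p.1, p.2, 1])) (mulVec_ne g hg _ (nu_affine_ne p))

/-- the Veronese surface with the matrix `g` -/
def surf (g : Matrix (Fin 10) (Fin 10) ℂ) (hg : g.det ≠ 0) : Set (ℙ ℂ (Fin 10 → ℂ)) :=
  {P | ∃ (x : Fin 3 → ℂ) (_ : x ≠ 0) (h : chg g hg (veroneseVector 2 3 x) ≠ 0),
    P = Projectivization.mk ℂ (chg g hg (veroneseVector 2 3 x)) h}

lemma surf_isVeronese (g : Matrix (Fin 10) (Fin 10) ℂ) (hg : g.det ≠ 0) :
    IsVeronese 2 3 (surf g hg) := ⟨chg g hg, rfl⟩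

lemma mem_surf (g : Matrix (Fin 10) (Fin 10) ℂ) (hg : g.det ≠ 0) (x : Fin 3 → ℂ)
    (v : Fin 10 → ℂ) (hv : v ≠ 0) (h : g.mulVec (nu x) = v) :
    Projectivization.mk ℂ v hv ∈ surf g hg := by
  subst h
  have hx : x ≠ 0 := by
    rintro rfl
    rw [nu_zero] at hv
    simp at hv
  refine ⟨x, hx, ?_, ?_⟩
  · rw [chg_vv]; exact hv
  · simp only [chg_vv]

lemma aff_mem (g : Matrix (Fin 10) (Fin 10) ℂ) (hg : g.det ≠ 0) (p : ℂ × ℂ) :
    aff g hg p ∈ surf g hg := mem_surf g hg _ _ _ rfl

lemma surf_infinite (g : Matrix (Fin 10) (Fin 10) ℂ) (hg : g.det ≠ 0) :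
    (surf g hg).Infinite := by
  have hinj : Function.Injective (fun t : ℂ => aff g hg (t, 0)) := by
    intro s t hst
    simp only [aff] at hst
    rw [Projectivization.mk_eq_mk_iff'] at hst
    obtain ⟨a, ha⟩ := hst
    rw [← Matrix.mulVec_smul] at ha
    have h2 : g.mulVec (a • nu ![t, 0, 1] - nu ![s, 0, 1]) = 0 := by
      rw [Matrix.mulVec_sub, ha, sub_self]
    have h3 := Matrix.eq_zero_of_mulVec_eq_zero hg h2
    have h4 := congrFun h3 0
    have h5 := congrFun h3 4
    simp [nu, ex] at h4 h5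
    have ha1 : a = 1 := by linear_combination h4
    rw [ha1] at h5
    linear_combination -h5
  exact (Set.infinite_range_of_injective hinj).mono (by
    rintro _ ⟨t, rfl⟩
    exact aff_mem g hg _)

lemma inter_finite (g h : Matrix (Fin 10) (Fin 10) ℂ) (hg : g.det ≠ 0) (hh : h.det ≠ 0)
    (hT : (Tm (h.adjugate * g)).det ≠ 0) : (surf g hg ∩ surf h hh).Finite := by
  have hA := fin_affine (h.adjugate * g) hT
  apply (hA.image (aff g hg)).subset
  rintro P ⟨⟨x, hx, hgx, hP⟩, ⟨y, hy, hhy, hP'⟩⟩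
  rw [hP] at hP'
  rw [Projectivization.mk_eq_mk_iff'] at hP'
  obtain ⟨a, ha⟩ := hP'
  rw [chg_vv, chg_vv] at ha
  have hM : (h.adjugate * g).mulVec (nu x) = (a * h.det) • nu y := by
    rw [← Matrix.mulVec_mulVec, ← ha, Matrix.mulVec_smul, Matrix.mulVec_mulVec,
      Matrix.adjugate_mul, Matrix.smul_mulVec, Matrix.one_mulVec, smul_smul]
  have hq : ∀ q, quad q ((h.adjugate * g).mulVec (nu x)) = 0 := by
    intro q
    rw [hM, quad_smul, quad_nu, mul_zero]
  have hx2 : x 2 ≠ 0 := fun h0 => hx (no_point_at_infinity _ hT x hq h0)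
  have hxs : x = x 2 • ![x 0 / x 2, x 1 / x 2, 1] := by
    ext c
    fin_cases c
    · simp; field_simp
    · simp; field_simp
    · simp
  have hnu : nu x = x 2 ^ 3 • nu ![x 0 / x 2, x 1 / x 2, 1] := by
    rw [← nu_smul]
    exact congrArg nu hxs
  refine ⟨(x 0 / x 2, x 1 / x 2), ?_, ?_⟩
  · intro q
    have h1 := hq q
    rw [hnu, Matrix.mulVec_smul, quad_smul] at h1
    exact (mul_eq_zero.1 h1).resolve_left (pow_ne_zero _ (pow_ne_zero _ hx2))
  · rw [hP]
    simp only [aff]
    rw [Projectivization.mk_eq_mk_iff']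
    refine ⟨((x 2) ^ 3)⁻¹, ?_⟩
    rw [chg_vv, hnu, Matrix.mulVec_smul, smul_smul, inv_mul_cancel₀ (pow_ne_zero _ hx2), one_smul]

/-- **Main theorem.** Through 13 general points of `ℙ^9` there are two different 3-Veronese surfaces
whose intersection is a finite set. This is the negated form of Q1 for `n = 2`, `r = 3`,
`N = 10`, `m = 13`. -/
theorem result : ForGeneral 13 10 (fun p => ∃ V W : Set (ℙ ℂ (Fin 10 → ℂ)),
    IsVeronese 2 3 V ∧ IsVeronese 2 3 W ∧ V ≠ W ∧ (∀ i, p i ∈ V) ∧ (∀ i, p i ∈ W) ∧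
      (V ∩ W).Finite) := by
  obtain ⟨F, hF0, hF⟩ := core
  refine ⟨F, hF0, fun v hv hFv => ?_⟩
  obtain ⟨g, h, x, y, hx, hy, hg, hh, hT⟩ := hF v hFv
  have hfin := inter_finite g h hg hh hT
  refine ⟨surf g hg, surf h hh, surf_isVeronese g hg, surf_isVeronese h hh, ?_, ?_, ?_, hfin⟩
  · intro heq
    rw [heq, Set.inter_self] at hfin
    exact surf_infinite h hh hfin
  · exact fun i => mem_surf g hg (x i) _ _ (hx i)
  · exact fun i => mem_surf h hh (y i) _ _ (hy i)

end Pool.Agent.Results.MP_f58153_ag.FiniteIntersection
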